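import Mathlib

set_option autoImplicit false

namespace Pool.Agent.H.MP_4a5c06_al

variable {R N : Type} [Ring R] [AddCommGroup N] [Module R N]

def Ind (d : N → ℕ) (R : Type) [Ring R] [Module R N] (x y : N) : Prop :=
  ∀ s a : R, d (s • x) ≤ d (s • x + a • y) ∧ d (a • y) ≤ d (s • x + a • y)

structure WA (d : N → ℕ) (R : Type) [Ring R] [Module R N] : Prop where
  two : ∀ x : N, x + x = 0
  add : ∀ x y, d (x + y) ≤ max (d x) (d y)
  zero : d 0 = 0
  mul : ∀ (x : N) (s : R), x ≠ 0 → s ≠ 0 → d x ≤ d (s • x) ∧ (d (s • x) ≤ d x → s = 1)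
  wa : ∀ x y : N, x ≠ 0 → y ≠ 0 → Ind d R x y ∨ (∃ b : R, d (x + b • y) < d x) ∨
    (∃ b : R, d (y + b • x) < d y)

structure Ctx (d : N → ℕ) (R : Type) [Ring R] [Module R N] (P : N → N → N → Prop) (D : ℕ) :
    Prop where
  sw1 : ∀ a b c, P a b c → P b a c
  sw2 : ∀ a b c, P a b c → P a c b
  op : ∀ a b c (s t : R), P a b c → d a + d b + d c < D → P (a + s • b + t • c) b c

variable {d : N → ℕ} {P : N → N → N → Prop} {D : ℕ}

lemma WA.fix (h : WA d R) {x y : N} (z : N) (e : x = y + (z + z)) : x = y := by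
  rw [e, h.two, add_zero]

lemma WA.eq_of_lt (h : WA d R) {x y : N} (hl : d (x + y) < d x) : d y = d x := by
  have h1 := h.add (x + y) y
  have h2 := h.add x (x + y)
  rw [h.fix (x := x + y + y) (y := x) y (by abel)] at h1
  rw [h.fix (x := x + (x + y)) (y := y) x (by abel)] at h2
  omega

lemma WA.le_of_le (h : WA d R) {x y : N} (hl : d (x + y) ≤ d x) : d y ≤ d x := by
  have h2 := h.add x (x + y)
  rw [h.fix (x := x + (x + y)) (y := y) x (by abel)] at h2
  omega

lemma WA.ne_of_lt (h : WA d R) {x y : N} {b : R} (hl : d (x + b • y) < d x) : b ≠ 0 := by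
  rintro rfl
  simp at hl

lemma Ctx.op2 (c : Ctx d R P D) {x y z : N} (s t : R) (hp : P x y z) (hd : d x + d y + d z < D) :
    P x (y + s • x + t • z) z :=
  c.sw1 _ _ _ (c.op _ _ _ s t (c.sw1 _ _ _ hp) (by omega))

lemma Ctx.same (h : WA d R) (c : Ctx d R P D) {x y z : N} {s t : R} (s' t' : R)
    (hp : P (x + s • y + t • z) y z) (hd : d (x + s • y + t • z) + d y + d z < D) :
    P (x + s' • y + t' • z) y z := by
  have := c.op _ _ _ (s + s') (t + t') hp hd
  rwa [h.fix (x := x + s • y + t • z + (s + s') • y + (t + t') • z) (y := x + s' • y + t' • z)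
    (s • y + t • z) (by (try simp only [add_smul, smul_add, mul_smul, zero_smul, one_smul, add_zero, zero_add, smul_zero]) <;> abel)] at this

lemma Ctx.zero (h : WA d R) (c : Ctx d R P D) {x y z : N} {s t s' t' : R}
    (hD : d x + d y + d z ≤ D)
    (hp : P (x + s • y + t • z) y z) (hd : d (x + s • y + t • z) < d x)
    (hd' : d (y + s' • x + t' • z) < d y) (h0 : s = 0 ∨ s' = 0) :
    P x (y + s' • x + t' • z) z := by
  rcases h0 with rfl | rfl
  · have h1 := c.op2 s' (t' + s' * t) hp (by omega)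
    rw [h.fix (x := y + s' • (x + (0 : R) • y + t • z) + (t' + s' * t) • z)
      (y := y + s' • x + t' • z) ((s' * t) • z) (by (try simp only [add_smul, smul_add, mul_smul, zero_smul, one_smul, add_zero, zero_add, smul_zero]) <;> abel)] at h1
    have h2 := c.op _ _ _ 0 t h1 (by omega)
    rwa [h.fix (x := x + (0 : R) • y + t • z + (0 : R) • (y + s' • x + t' • z) + t • z)
      (y := x) (t • z) (by (try simp only [add_smul, smul_add, mul_smul, zero_smul, one_smul, add_zero, zero_add, smul_zero]) <;> abel)] at h2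
  · have h1 := c.op2 0 t' hp (by omega)
    rw [show y + (0 : R) • (x + s • y + t • z) + t' • z = y + (0 : R) • x + t' • z by (try simp only [add_smul, smul_add, mul_smul, zero_smul, one_smul, add_zero, zero_add, smul_zero]) <;> abel] at h1
    have h2 := c.op _ _ _ s (t + s * t') h1 (by omega)
    rwa [h.fix (x := x + s • y + t • z + s • (y + (0 : R) • x + t' • z) + (t + s * t') • z)
      (y := x) (s • y + t • z + (s * t') • z) (by (try simp only [add_smul, smul_add, mul_smul, zero_smul, one_smul, add_zero, zero_add, smul_zero]) <;> abel)] at h2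

lemma Ctx.swap (h : WA d R) (c : Ctx d R P D) {x y z : N} (hD : d x + d y + d z ≤ D)
    (hp : P (x + y) y z) (hd : d (x + y) < d x) : P x (y + x) z := by
  have h1 := c.op2 1 0 hp (by omega)
  rw [h.fix (x := y + (1 : R) • (x + y) + (0 : R) • z) (y := x) y (by (try simp only [add_smul, smul_add, mul_smul, zero_smul, one_smul, add_zero, zero_add, smul_zero]) <;> abel)] at h1
  rw [add_comm y x]
  exact c.sw1 _ _ _ h1

lemma WA.both_one (h : WA d R) {x y z : N} (hx : x ≠ 0) (hy : y ≠ 0) {s t b : R}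
    (hi : Ind d R y z) (hs : s ≠ 0) (hb : b ≠ 0) (h1 : d (s • y + t • z) ≤ d x)
    (h2 : d (b • x) ≤ d y) : s = 1 ∧ b = 1 ∧ d x = d y := by
  have a1 := (hi s t).1
  have a2 := h.mul y s hy hs
  have a3 := h.mul x b hx hb
  exact ⟨a2.2 (by omega), a3.2 (by omega), by omega⟩

/-- from a simple reduction of the first column by the second to any drop of the second column -/
lemma Ctx.s1 (h : WA d R) (c : Ctx d R P D) {x y z : N} (hx : x ≠ 0) (hy : y ≠ 0) (hz : z ≠ 0)
    (hD : d x + d y + d z ≤ D) {b s t : R}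
    (hp : P (x + b • y) y z) (hd : d (x + b • y) < d x)
    (hd' : d (y + s • x + t • z) < d y) : P x (y + s • x + t • z) z := by
  have e0 : ∀ (u v w : N) (r : R), u + r • v = u + r • v + (0 : R) • w := by intros; (try simp only [add_smul, smul_add, mul_smul, zero_smul, one_smul, add_zero, zero_add, smul_zero]) <;> abel
  have e1 : ∀ (u v w : N) (r : R), u + r • w = u + (0 : R) • v + r • w := by intros; (try simp only [add_smul, smul_add, mul_smul, zero_smul, one_smul, add_zero, zero_add, smul_zero]) <;> abel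
  by_cases hs : s = 0
  · exact c.zero h hD (s := b) (t := 0) (by rwa [← e0]) (by rwa [← e0]) hd' (Or.inr hs)
  rcases h.wa x z hx hz with hi | ⟨r, hr⟩ | ⟨r, hr⟩
  · have h1 : d (s • x + t • z) ≤ d y := h.le_of_le (by rw [← add_assoc]; omega)
    obtain ⟨rfl, rfl, h3⟩ := h.both_one hy hx hi hs (h.ne_of_lt hd) h1 (h.eq_of_lt hd).le
    rw [one_smul] at hp hd
    have h4 := c.sw1 _ _ _ (c.swap h hD hp hd)
    refine c.sw1 _ _ _ (c.same h (s := 1) (t := 0) 1 t ?_ ?_)
    · rwa [← e0, one_smul]
    · rw [← e0, one_smul, add_comm y x]; omega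
  · have h1 : P (x + (0 : R) • y + r • z) y z :=
      c.same h (s := b) (t := 0) 0 r (by rwa [← e0]) (by rw [← e0]; omega)
    exact c.zero h hD h1 (by rwa [← e1]) hd' (Or.inl rfl)
  · have h1 : P x (z + r • x + (0 : R) • y) y :=
      c.zero h (s := 0) (t := b) (by omega) (by rw [← e1]; exact c.sw2 _ _ _ hp)
        (by rwa [← e1]) (by rwa [← e0]) (Or.inl rfl)
    have h2 : P (z + (0 : R) • y + r • x) y x := by
      rw [← e1, e0 z x y]
      exact c.sw2 _ _ _ (c.sw1 _ _ _ h1)
    have h3 : P z (y + t • z + s • x) x :=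
      c.zero h (by omega) h2 (by rwa [← e1]) (by rwa [add_right_comm]) (Or.inl rfl)
    rw [add_right_comm]
    exact c.sw1 _ _ _ (c.sw2 _ _ _ (c.sw1 _ _ _ h3))

lemma Ctx.key (h : WA d R) (c : Ctx d R P D) {x y z : N} (hx : x ≠ 0) (hy : y ≠ 0) (hz : z ≠ 0)
    (hD : d x + d y + d z = D) {s t s' t' : R} (hw : d (x + s • y + t • z) ≤ d x)
    (n1 : ∀ a b : R, P (x + a • y + b • z) y z)
    (n2 : ∀ a b : R, P (x + s • y + t • z) (y + a • (x + s • y + t • z) + b • z) z)
    (n3 : ∀ a b : R, P (x + s • y + t • z) y (z + a • (x + s • y + t • z) + b • y))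
    (hd' : d (y + s' • x + t' • z) < d y) : P x (y + s' • x + t' • z) z := by
  have e0 : ∀ (u v w : N) (r : R), u + r • v = u + r • v + (0 : R) • w := by intros; (try simp only [add_smul, smul_add, mul_smul, zero_smul, one_smul, add_zero, zero_add, smul_zero]) <;> abel
  have e1 : ∀ (u v w : N) (r : R), u + r • w = u + (0 : R) • v + r • w := by intros; (try simp only [add_smul, smul_add, mul_smul, zero_smul, one_smul, add_zero, zero_add, smul_zero]) <;> abel
  have yz : ∀ r : R, d (y + r • z) < d y → P x (y + r • z) z := fun r hr => by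
    have h1 := n2 0 r
    rw [← e1] at h1
    have h2 := c.op _ _ _ s (t + s * r) h1 (by omega)
    rwa [h.fix (x := x + s • y + t • z + s • (y + r • z) + (t + s * r) • z) (y := x)
      (s • y + t • z + (s * r) • z) (by (try simp only [add_smul, smul_add, mul_smul, zero_smul, one_smul, add_zero, zero_add, smul_zero]) <;> abel)] at h2
  have zy : ∀ r : R, d (z + r • y) < d z → P x y (z + r • y) := fun r hr => by
    have h1 := n3 0 r
    rw [← e1] at h1
    have h2 := c.op _ _ _ (s + t * r) t h1 (by omega)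
    rwa [h.fix (x := x + s • y + t • z + (s + t * r) • y + t • (z + r • y)) (y := x)
      (s • y + t • z + (t * r) • y) (by (try simp only [add_smul, smul_add, mul_smul, zero_smul, one_smul, add_zero, zero_add, smul_zero]) <;> abel)] at h2
  rcases h.wa y z hy hz with hi | ⟨r, hr⟩ | ⟨r, hr⟩
  rotate_left
  · refine c.sw1 _ _ _ (c.same h (s := 0) (t := r) s' t' ?_ ?_)
    · rw [← e1]; exact c.sw1 _ _ _ (yz r hr)
    · rw [← e1]; omega
  · have h1 : P (z + r • y) y x := c.sw2 _ _ _ (c.sw1 _ _ _ (c.sw2 _ _ _ (zy r hr)))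
    have h2 := c.s1 h hz hy hx (by omega) h1 hr (s := t') (t := s') (by rwa [add_right_comm])
    rw [add_right_comm]
    exact c.sw1 _ _ _ (c.sw2 _ _ _ (c.sw1 _ _ _ h2))
  by_cases hs : s = 0
  · subst hs
    have h1 := n2 s' (t' + s' * t)
    rw [h.fix (x := y + s' • (x + (0 : R) • y + t • z) + (t' + s' * t) • z)
      (y := y + s' • x + t' • z) ((s' * t) • z) (by (try simp only [add_smul, smul_add, mul_smul, zero_smul, one_smul, add_zero, zero_add, smul_zero]) <;> abel)] at h1
    have h2 := c.op _ _ _ 0 t h1 (by omega)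
    rwa [h.fix (x := x + (0 : R) • y + t • z + (0 : R) • (y + s' • x + t' • z) + t • z)
      (y := x) (t • z) (by (try simp only [add_smul, smul_add, mul_smul, zero_smul, one_smul, add_zero, zero_add, smul_zero]) <;> abel)] at h2
  by_cases hs' : s' = 0
  · subst hs'
    rw [← e1] at hd' ⊢
    exact yz _ hd'
  have hw' : d (s • y + t • z) ≤ d x := h.le_of_le (by rwa [← add_assoc])
  rcases h.wa x z hx hz with hj | ⟨r, hr⟩ | ⟨r, hr⟩
  · have h1 : d (s' • x + t' • z) ≤ d y := h.le_of_le (by rw [← add_assoc]; omega)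
    obtain ⟨-, rfl, h3⟩ := h.both_one hx hy hi hs hs' hw' ((hj s' t').1.trans h1)
    have h4 := n1 1 t'
    have e : x + (1 : R) • y + t' • z = y + (1 : R) • x + t' • z := by (try simp only [add_smul, smul_add, mul_smul, zero_smul, one_smul, add_zero, zero_add, smul_zero]) <;> abel
    rw [e] at h4
    have h5 := c.op2 1 t' h4 (by omega)
    rw [h.fix (x := y + (1 : R) • (y + (1 : R) • x + t' • z) + t' • z) (y := x)
      (y + t' • z) (by (try simp only [add_smul, smul_add, mul_smul, zero_smul, one_smul, add_zero, zero_add, smul_zero]) <;> abel)] at h5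
    exact c.sw1 _ _ _ h5
  · exact c.zero h hD.le (n1 0 r) (by rwa [← e1]) hd' (Or.inl rfl)
  · have h0 : P x y (z + r • x) := by
      by_cases ht : t = 0
      · subst ht
        have h1 := n3 r (r * s)
        rw [h.fix (x := z + r • (x + s • y + (0 : R) • z) + (r * s) • y)
          (y := z + r • x) ((r * s) • y) (by (try simp only [add_smul, smul_add, mul_smul, zero_smul, one_smul, add_zero, zero_add, smul_zero]) <;> abel)] at h1
        have h2 := c.op _ _ _ s 0 h1 (by omega)
        rwa [h.fix (x := x + s • y + (0 : R) • z + s • y + (0 : R) • (z + r • x))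
          (y := x) (s • y) (by (try simp only [add_smul, smul_add, mul_smul, zero_smul, one_smul, add_zero, zero_add, smul_zero]) <;> abel)] at h2
      · have hi' : Ind d R z y := fun a b => by rw [add_comm]; exact (hi b a).symm
        obtain ⟨-, rfl, h3⟩ := h.both_one hx hz hi' ht (h.ne_of_lt hr) (t := s)
          (by rwa [add_comm]) (h.eq_of_lt hr).le
        rw [one_smul] at hr ⊢
        have h4 := n1 0 1
        rw [← e1, one_smul] at h4
        exact c.sw2 _ _ _ (c.swap h (by omega) (c.sw2 _ _ _ h4) (by rw [add_comm]; omega))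
    have h2 : P (z + (0 : R) • y + r • x) y x := by
      rw [← e1]
      exact c.sw2 _ _ _ (c.sw1 _ _ _ (c.sw2 _ _ _ h0))
    have h3 : P z (y + t' • z + s' • x) x :=
      c.zero h (by omega) h2 (by rwa [← e1]) (by rwa [add_right_comm]) (Or.inl rfl)
    rw [add_right_comm]
    exact c.sw1 _ _ _ (c.sw2 _ _ _ (c.sw1 _ _ _ h3))

end Pool.Agent.H.MP_4a5c06_al
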