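import Pool.Agent.H.MP_4a5c06_al.Abs

set_option autoImplicit false

namespace Pool.Agent.H.MP_4a5c06_al

variable {R N : Type} [Ring R] [AddCommGroup N] [Module R N] {d : N → ℕ}

def I3 (R : Type) [Ring R] [Module R N] (a b c : N) : Prop :=
  ∀ s t u : R, s • a + t • b + u • c = 0 → s = 0 ∧ t = 0 ∧ u = 0

lemma I3.sw1 {a b c : N} (h : I3 R a b c) : I3 R b a c := fun s t u e => by
  have := h t s u (by rw [← e]; abel)
  tauto

lemma I3.sw2 {a b c : N} (h : I3 R a b c) : I3 R a c b := fun s t u e => by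
  have := h s u t (by rw [← e]; abel)
  tauto

lemma I3.op {a b c : N} {s t : R} (h : I3 R (a + s • b + t • c) b c) : I3 R a b c :=
  fun p q r e => by
  obtain ⟨h1, h2, h3⟩ := h p (q - p * s) (r - p * t) (by
    rw [← e]; simp only [smul_add, sub_smul, mul_smul]; abel)
  subst h1
  simpa using And.intro h2 h3

lemma I3.ne [Nontrivial R] {a b c : N} (h : I3 R a b c) : a ≠ 0 := by
  rintro rfl
  simpa using h 1 0 0

def T3 (d : N → ℕ) (D : ℕ) (a b c : N) : Prop :=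
  0 < D ∧ d a = D ∧ d b = D ∧ d c = D ∧ d (a + b) = D ∧ d (a + c) = D ∧ d (b + c) = D ∧
    d (a + b + c) = D

lemma T3.sw1 {D : ℕ} {a b c : N} (h : T3 d D a b c) : T3 d D b a c := by
  obtain ⟨h0, h1, h2, h3, h4, h5, h6, h7⟩ := h
  exact ⟨h0, h2, h1, h3, by rwa [add_comm], h6, h5, by rwa [add_comm b a]⟩

lemma T3.sw2 {D : ℕ} {a b c : N} (h : T3 d D a b c) : T3 d D a c b := by
  obtain ⟨h0, h1, h2, h3, h4, h5, h6, h7⟩ := h
  exact ⟨h0, h1, h3, h2, h5, h4, by rwa [add_comm], by rwa [add_right_comm]⟩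

lemma T3.scal (h : WA d R) {D : ℕ} {a b c : N} (h3 : T3 d D a b c) {s t : R}
    (hd : d (a + s • b + t • c) ≤ d a) : (s = 0 ∨ s = 1) ∧ (t = 0 ∨ t = 1) := by
  obtain ⟨h0, h1, h2, h3, h4, h5, h6, h7⟩ := h3
  have hz := h.zero
  have hb : b ≠ 0 := by rintro rfl; omega
  have hc : c ≠ 0 := by rintro rfl; omega
  have hw : d (s • b + t • c) ≤ d a := h.le_of_le (by rwa [← add_assoc])
  rcases h.wa b c hb hc with hi | ⟨r, hr⟩ | ⟨r, hr⟩
  · have := hi s t
    constructor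
    · by_cases hs : s = 0
      · exact Or.inl hs
      · exact Or.inr ((h.mul b s hb hs).2 (by omega))
    · by_cases ht : t = 0
      · exact Or.inl ht
      · exact Or.inr ((h.mul c t hc ht).2 (by omega))
  · have e := h.eq_of_lt hr
    have := (h.mul c r hc (h.ne_of_lt hr)).2 (by omega)
    rw [this, one_smul] at hr
    omega
  · have e := h.eq_of_lt hr
    have := (h.mul b r hb (h.ne_of_lt hr)).2 (by omega)
    rw [this, one_smul, add_comm] at hr
    omega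

lemma T3.op (h : WA d R) {D : ℕ} {a b c : N} (h3 : T3 d D a b c) {s t : R}
    (hd : d (a + s • b + t • c) ≤ d a) : T3 d D (a + s • b + t • c) b c := by
  obtain ⟨hs, ht⟩ := h3.scal h hd
  obtain ⟨h0, h1, h2, h3, h4, h5, h6, h7⟩ := h3
  have e1 : ∀ x y : N, x + y + y = x := fun x y => h.fix y (by abel)
  have e2 : ∀ x y z : N, x + y + z + y = x + z := fun x y z => h.fix y (by abel)
  rcases hs with rfl | rfl <;> rcases ht with rfl | rfl <;>
    simp only [zero_smul, one_smul, add_zero]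
  · exact ⟨h0, h1, h2, h3, h4, h5, h6, h7⟩
  · exact ⟨h0, h5, h2, h3, by rwa [add_right_comm], by rwa [e1], h6, by rwa [e2]⟩
  · exact ⟨h0, h4, h2, h3, by rwa [e1], h7, h6, by rwa [e1]⟩
  · exact ⟨h0, h7, h2, h3, by rwa [e2], by rwa [e1], h6, by rwa [e2, e1]⟩

inductive Pt (d : N → ℕ) (R : Type) [Ring R] [Module R N] (a₀ b₀ c₀ : N) : N → N → N → Prop
  | base : Pt d R a₀ b₀ c₀ a₀ b₀ c₀
  | op (a b c : N) (s t : R) (hd : d (a + s • b + t • c) ≤ d a)
      (hp : Pt d R a₀ b₀ c₀ (a + s • b + t • c) b c) : Pt d R a₀ b₀ c₀ a b c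
  | sw1 (a b c : N) (hp : Pt d R a₀ b₀ c₀ b a c) : Pt d R a₀ b₀ c₀ a b c
  | sw2 (a b c : N) (hp : Pt d R a₀ b₀ c₀ a c b) : Pt d R a₀ b₀ c₀ a b c

variable {a₀ b₀ c₀ : N}

lemma Pt.i3 (h0 : I3 R a₀ b₀ c₀) {a b c : N} (hp : Pt d R a₀ b₀ c₀ a b c) : I3 R a b c := by
  induction hp with
  | base => exact h0
  | op a b c s t _ _ ih => exact ih.op
  | sw1 a b c _ ih => exact ih.sw1
  | sw2 a b c _ ih => exact ih.sw2

lemma Pt.up (h : WA d R) {a b c : N} (hp : Pt d R a₀ b₀ c₀ a b c) (s t : R)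
    (hd : d a ≤ d (a + s • b + t • c)) : Pt d R a₀ b₀ c₀ (a + s • b + t • c) b c := by
  have e : a + s • b + t • c + s • b + t • c = a := h.fix (s • b + t • c) (by abel)
  exact Pt.op _ _ _ s t (by rwa [e]) (by rwa [e])

def Nb (P : N → N → N → Prop) (R : Type) [Ring R] [Module R N] (a b c : N) : Prop :=
  (∀ s t : R, P (a + s • b + t • c) b c) ∧ (∀ s t : R, P a (b + s • a + t • c) c) ∧
    (∀ s t : R, P a b (c + s • a + t • b))

theorem Pt.nb [Nontrivial R] (h : WA d R) (h0 : I3 R a₀ b₀ c₀) {D₀ : ℕ} (hT : T3 d D₀ a₀ b₀ c₀)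
    (D : ℕ) : ∀ {a b c : N}, Pt d R a₀ b₀ c₀ a b c → d a + d b + d c ≤ D →
      Nb (Pt d R a₀ b₀ c₀) R a b c := by
  induction D using Nat.strong_induction_on with
  | _ D IH =>
  intro a b c hp
  have up2 : ∀ {a b c : N}, Pt d R a₀ b₀ c₀ a b c → ∀ s t : R, d b ≤ d (b + s • a + t • c) →
      Pt d R a₀ b₀ c₀ a (b + s • a + t • c) c := fun hp s t hd =>
    Pt.sw1 _ _ _ ((Pt.sw1 _ _ _ hp).up h s t hd)
  have up3 : ∀ {a b c : N}, Pt d R a₀ b₀ c₀ a b c → ∀ s t : R, d c ≤ d (c + s • a + t • b) →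
      Pt d R a₀ b₀ c₀ a b (c + s • a + t • b) := fun hp s t hd =>
    Pt.sw2 _ _ _ (up2 (Pt.sw2 _ _ _ hp) s t hd)
  have tt : ∀ {a b c : N}, T3 d D₀ a b c → ∀ s t : R, d a ≤ d (a + s • b + t • c) := by
    intro a b c h3 s t
    by_contra hlt
    have := (h3.op h (s := s) (t := t) (by omega)).2.1
    have := h3.2.1
    omega
  induction hp with
  | base =>
    intro _
    exact ⟨fun s t => Pt.base.up h s t (tt hT s t), fun s t => up2 Pt.base s t (tt hT.sw1 s t),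
      fun s t => up3 Pt.base s t (tt hT.sw2.sw1 s t)⟩
  | sw1 a b c _ ih =>
    intro hD
    obtain ⟨n1, n2, n3⟩ := ih (by omega)
    exact ⟨fun s t => Pt.sw1 _ _ _ (n2 s t), fun s t => Pt.sw1 _ _ _ (n1 s t),
      fun s t => Pt.sw1 _ _ _ (by rw [add_right_comm]; exact n3 t s)⟩
  | sw2 a b c _ ih =>
    intro hD
    obtain ⟨n1, n2, n3⟩ := ih (by omega)
    exact ⟨fun s t => Pt.sw2 _ _ _ (by rw [add_right_comm]; exact n1 t s),
      fun s t => Pt.sw2 _ _ _ (n3 s t), fun s t => Pt.sw2 _ _ _ (n2 s t)⟩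
  | op a b c s t hd hp ih =>
    intro hD
    obtain ⟨n1, n2, n3⟩ := ih (by omega)
    have hv : Pt d R a₀ b₀ c₀ a b c := Pt.op a b c s t hd hp
    have hi := hv.i3 h0
    have ctx : Ctx d R (Pt d R a₀ b₀ c₀) (d a + d b + d c) :=
      ⟨fun a b c hp => Pt.sw1 _ _ _ hp, fun a b c hp => Pt.sw2 _ _ _ hp,
        fun x y z s t hp hlt => (IH _ (lt_of_lt_of_le hlt hD) hp le_rfl).1 s t⟩
    have m1 : ∀ p q : R, Pt d R a₀ b₀ c₀ (a + p • b + q • c) b c := fun p q => by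
      have := n1 (s + p) (t + q)
      rwa [h.fix (x := a + s • b + t • c + (s + p) • b + (t + q) • c) (y := a + p • b + q • c)
        (s • b + t • c) (by simp only [add_smul]; abel)] at this
    refine ⟨m1, fun p q => ?_, fun p q => ?_⟩
    · by_cases hlt : d b ≤ d (b + p • a + q • c)
      · exact up2 hv p q hlt
      · exact ctx.key h hi.ne hi.sw1.ne hi.sw2.sw1.ne rfl hd m1 n2 n3 (by omega)
    · by_cases hlt : d c ≤ d (c + p • a + q • b)
      · exact up3 hv p q hlt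
      · refine Pt.sw2 _ _ _ (ctx.key h hi.ne hi.sw2.sw1.ne hi.sw1.ne (by omega) (s := t) (t := s)
          (by rwa [add_right_comm]) (fun x y => ?_) (fun x y => ?_) (fun x y => ?_) (by omega))
        · rw [add_right_comm]; exact Pt.sw2 _ _ _ (m1 y x)
        · rw [add_right_comm a]; exact Pt.sw2 _ _ _ (n3 x y)
        · rw [add_right_comm a]; exact Pt.sw2 _ _ _ (n2 x y)

theorem Pt.span (h : WA d R) {a b c : N} (hp : Pt d R a₀ b₀ c₀ a b c) {D : ℕ} :
    T3 d D a b c → d a₀ = D ∧ ∀ K : AddSubgroup N, a₀ ∈ K → b₀ ∈ K → c₀ ∈ K →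
      a ∈ K ∧ b ∈ K ∧ c ∈ K := by
  induction hp with
  | base => exact fun h3 => ⟨h3.2.1, fun K h1 h2 h3 => ⟨h1, h2, h3⟩⟩
  | sw1 a b c _ ih =>
    intro h3
    obtain ⟨e, hK⟩ := ih h3.sw1
    exact ⟨e, fun K h1 h2 h3 => by have := hK K h1 h2 h3; tauto⟩
  | sw2 a b c _ ih =>
    intro h3
    obtain ⟨e, hK⟩ := ih h3.sw2
    exact ⟨e, fun K h1 h2 h3 => by have := hK K h1 h2 h3; tauto⟩
  | op a b c s t hd _ ih =>
    intro h3
    obtain ⟨e, hK⟩ := ih (h3.op h hd)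
    refine ⟨e, fun K h1 h2 h4 => ?_⟩
    obtain ⟨k1, k2, k3⟩ := hK K h1 h2 h4
    refine ⟨?_, k2, k3⟩
    obtain ⟨hs, ht⟩ := h3.scal h hd
    have hs' : s • b ∈ K := by rcases hs with rfl | rfl <;> simp [k2]
    have ht' : t • c ∈ K := by rcases ht with rfl | rfl <;> simp [k3]
    simpa using K.sub_mem (K.sub_mem k1 ht') hs'

end Pool.Agent.H.MP_4a5c06_al
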