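import Pool.Agent.H.MP_4a5c06_al.Free
import Pool.Agent.H.MP_4a5c06_al.Path

set_option autoImplicit false

namespace Pool.Agent.H.MP_4a5c06_al

open MonoidAlgebra Matrix

noncomputable def dg {ι : Type} [Fintype ι] (x : ι → T) : ℕ :=
  Finset.univ.sup fun i => (x i).coeff.support.sup fun w => w.length + 1

lemma dg_le {ι : Type} [Fintype ι] (x : ι → T) (p : ℕ) : dg x ≤ p ↔ ∀ i, Sp (· < p) (x i) := by
  simp [dg, Finset.sup_le_iff, Sp, Nat.succ_le_iff]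

def Top {ι : Type} (p : ℕ) (x x₀ : ι → T) : Prop :=
  (∀ i, Sp (· = p) (x₀ i)) ∧ ∀ i, Sp (· < p) (x i + x₀ i)

lemma T.fix {x y : T} (z : T) (e : x = y + (z + z)) : x = y := by rw [e, T.two, add_zero]

lemma Top.le {ι : Type} {p : ℕ} {x x₀ : ι → T} (h : Top p x x₀) (i : ι) :
    Sp (· < p + 1) (x i) := by
  rw [← T.fix (x := x i + x₀ i + x₀ i) (y := x i) (x₀ i) (by abel)]
  exact ((h.2 i).mono (by omega)).add ((h.1 i).mono (by omega))

lemma Top.eq_zero {ι : Type} {p : ℕ} {x x₀ : ι → T} (h : Top p x x₀)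
    (hx : ∀ i, Sp (· < p) (x i)) : x₀ = 0 := by
  funext i
  refine (h.1 i).eq_zero ?_
  rw [← T.fix (x := x i + (x i + x₀ i)) (y := x₀ i) (x i) (by abel)]
  exact (hx i).add (h.2 i)

lemma Top.dg_eq {ι : Type} [Fintype ι] {p : ℕ} {x x₀ : ι → T} (h : Top p x x₀) (h0 : x₀ ≠ 0) :
    dg x = p + 1 := by
  have h1 := (dg_le x (p + 1)).2 h.le
  by_contra hne
  exact h0 (h.eq_zero ((dg_le x p).1 (by omega)))

lemma Top.add {ι : Type} {p : ℕ} {x x₀ y y₀ : ι → T} (h : Top p x x₀) (h' : Top p y y₀) :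
    Top p (x + y) (x₀ + y₀) :=
  ⟨fun i => (h.1 i).add (h'.1 i), fun i => by
    have := (h.2 i).add (h'.2 i)
    rwa [add_add_add_comm] at this⟩

lemma top_of_le {ι : Type} {p : ℕ} {x : ι → T} (h : ∀ i, Sp (· < p + 1) (x i)) :
    ∃ x₀, Top p x x₀ := by
  classical
  refine ⟨fun i => ofCoeff ((x i).coeff.filter (fun w => w.length = p)), fun i w hw => ?_,
    fun i w hw => ?_⟩
  · by_contra hne
    simp [Finsupp.filter_apply, hne] at hw
  · by_cases e : w.length = p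
    · exfalso
      apply hw
      have : ∀ c : ZMod 2, c + c = 0 := by decide
      simp [Finsupp.filter_apply, e, this]
    · have := h i w (by simpa [Finsupp.filter_apply, e] using hw)
      omega

lemma exists_top {ι : Type} [Fintype ι] {x : ι → T} (hx : x ≠ 0) :
    ∃ p x₀, x₀ ≠ 0 ∧ Top p x x₀ := by
  have h0 : dg x ≠ 0 := fun h => hx (by
    funext i
    ext w
    by_contra hw
    simpa using (dg_le x 0).1 h.le i w hw)
  obtain ⟨p, hp⟩ := Nat.exists_eq_succ_of_ne_zero h0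
  obtain ⟨x₀, h⟩ := top_of_le ((dg_le x (p + 1)).1 hp.le)
  refine ⟨p, x₀, ?_, h⟩
  rintro rfl
  have := (dg_le x p).2 (fun i => by simpa using h.2 i)
  omega

lemma Sp.mv {P Q U : ℕ → Prop} {S : M3} {x : V} (hS : ∀ i j, Sp P (S i j))
    (hx : ∀ i, Sp Q (x i)) (h : ∀ i j, P i → Q j → U (i + j)) (i : Fin 3) : Sp U ((S *ᵥ x) i) :=
  Sp.sum _ _ fun j => (hS i j).mul (hx j) h

def RR : Subring M3 where
  carrier := {m | ∃ (c : ZMod 2) (S : M3), m = c • 1 + S * Θ}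
  mul_mem' := by
    rintro _ _ ⟨c, S, rfl⟩ ⟨c', S', rfl⟩
    refine ⟨c * c', c • S' + c' • S + S * Θ * S', ?_⟩
    simp only [add_mul, mul_add, smul_mul_assoc, mul_smul_comm, one_mul, mul_one, mul_smul,
      mul_assoc, smul_add, smul_comm c' c]
    abel
  one_mem' := ⟨1, 0, by simp⟩
  add_mem' := by
    rintro _ _ ⟨c, S, rfl⟩ ⟨c', S', rfl⟩
    exact ⟨c + c', S + S', by simp only [add_smul, add_mul]; abel⟩
  zero_mem' := ⟨0, 0, by simp⟩
  neg_mem' := by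
    rintro _ ⟨c, S, rfl⟩
    exact ⟨-c, -S, by simp only [neg_smul, neg_mul]; abel⟩

def NN : Type := V

noncomputable instance : AddCommGroup NN := inferInstanceAs (AddCommGroup V)

noncomputable instance : Module RR NN where
  smul r x := (r.1 *ᵥ (x : V) : V)
  one_smul x := one_mulVec (x : V)
  mul_smul r s x := (mulVec_mulVec (x : V) r.1 s.1).symm
  smul_zero r := mulVec_zero r.1
  smul_add r x y := mulVec_add r.1 (x : V) (y : V)
  add_smul r s x := add_mulVec r.1 s.1 (x : V)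
  zero_smul x := zero_mulVec (x : V)

lemma smul_def (r : RR) (x : NN) : (r • x : NN) = (r.1 *ᵥ (x : V) : V) := rfl

noncomputable def dN (x : NN) : ℕ := dg (x : V)

lemma Top.act {σ p : ℕ} {S S₀ : M3} {x x₀ : V} (c : ZMod 2)
    (hS : Top σ (fun l : L => S l.1 l.2) (fun l : L => S₀ l.1 l.2)) (hx : Top p x x₀) :
    Top (σ + 1 + p) ((c • 1 + S * Θ) *ᵥ x) (S₀ *ᵥ (Θ *ᵥ x₀)) := by
  have a1 : ∀ i j, Sp (· = σ) (S₀ i j) := fun i j => hS.1 (i, j)
  have a2 : ∀ i j, Sp (· < σ) ((S + S₀) i j) := fun i j => hS.2 (i, j)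
  refine ⟨Sp.mv a1 (Sp.mv (U := (· = 1 + p)) Θ_hom hx.1 (by omega)) (by omega), fun i => ?_⟩
  have e : ((c • 1 + S * Θ) *ᵥ x) i + (S₀ *ᵥ (Θ *ᵥ x₀)) i =
      c • x i + ((S + S₀) *ᵥ (Θ *ᵥ x)) i + (S₀ *ᵥ (Θ *ᵥ (x + x₀))) i := by
    symm
    refine T.fix ((S₀ *ᵥ (Θ *ᵥ x)) i) ?_
    simp only [add_mulVec, mulVec_add, smul_mulVec, one_mulVec, ← mulVec_mulVec, Pi.add_apply,
      Pi.smul_apply]
    abel
  rw [e]
  refine (((hx.le i).smul c).mono (by omega)).add ?_ |>.add ?_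
  · exact Sp.mv a2 (Sp.mv (U := (· < 1 + p + 1)) Θ_hom hx.le (by omega)) (by omega) i
  · exact Sp.mv a1 (Sp.mv (U := (· < 1 + p)) (x := x + x₀) Θ_hom hx.2 (by omega)) (by omega) i

lemma dom {σ : ℕ} {S₀ : M3} {x₀ : V} (hS : ∀ i j, Sp (· = σ) (S₀ i j)) (h0 : S₀ ≠ 0)
    (hx : x₀ ≠ 0) : S₀ *ᵥ (Θ *ᵥ x₀) ≠ 0 := fun e => by
  obtain ⟨i, hi⟩ := Function.ne_iff.1 h0
  rcases core σ σ x₀ 0 (S₀ i) 0 (hS i) (fun _ => Sp.zero _) le_rfl hi
    (by rw [zero_dotProduct]; exact congrFun e i) with ⟨-, c, h⟩ | ⟨β, B, -, -, h⟩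
  · exact hx (by simpa using h)
  · exact hx (by simpa using h)

lemma act_cases (s : RR) {x x₀ : V} {p : ℕ} (hx : Top p x x₀) (h0 : x₀ ≠ 0) :
    s = 0 ∨ s = 1 ∨ ∃ (σ : ℕ) (S₀ : M3), S₀ ≠ 0 ∧ (∀ i j, Sp (· = σ) (S₀ i j)) ∧
      Top (σ + 1 + p) (s.1 *ᵥ x) (S₀ *ᵥ (Θ *ᵥ x₀)) ∧ S₀ *ᵥ (Θ *ᵥ x₀) ≠ 0 := by
  obtain ⟨s, c, S, rfl⟩ := s
  by_cases hS : S = 0
  · subst hS
    have : ∀ c : ZMod 2, c = 0 ∨ c = 1 := by decide
    rcases this c with rfl | rfl
    · left; ext1; simp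
    · right; left; ext1; simp
  right; right
  have : (fun l : L => S l.1 l.2) ≠ 0 := fun e => hS (by ext1 i j; exact congrFun e (i, j))
  obtain ⟨σ, S₁, h1, h2⟩ := exists_top this
  have h3 : (Matrix.of fun i j => S₁ (i, j)) ≠ 0 := fun e => h1 (by
    funext l; exact congrFun (congrFun e l.1) l.2)
  exact ⟨σ, Matrix.of fun i j => S₁ (i, j), h3, fun i j => h2.1 (i, j), Top.act c h2 hx,
    dom (fun i j => h2.1 (i, j)) h3 h0⟩

lemma V.two (x : V) : x + x = 0 := funext fun i => T.two _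

lemma Top.lt {p : ℕ} {x y x₀ : V} (h : Top p x x₀) (h' : Top p y x₀) (h0 : x₀ ≠ 0) :
    dg (x + y) < dg x := by
  have := h.add h'
  rw [V.two] at this
  have h2 := (dg_le (x + y) p).2 (fun i => by simpa using this.2 i)
  rw [h.dg_eq h0]; omega

lemma red {p q σ α : ℕ} {x y x₀ y₀ : V} {S A : M3} (hx : Top p x x₀) (hy : Top q y y₀)
    (h0 : x₀ ≠ 0) (hS : ∀ i j, Sp (· = σ) (S i j)) (hA : ∀ i j, Sp (· = α) (A i j))
    (hS0 : S ≠ 0) (hle : σ ≤ α) (hd : σ + p = α + q) (e : S *ᵥ (Θ *ᵥ x₀) = A *ᵥ (Θ *ᵥ y₀)) :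
    ∃ b : RR, dg (x + b.1 *ᵥ y) < dg x := by
  obtain ⟨i, hi⟩ := Function.ne_iff.1 hS0
  rcases core σ α x₀ y₀ (S i) (A i) (hS i) (hA i) hle hi (congrFun e i) with
    ⟨h1, c, h⟩ | ⟨β, B, h1, hB, h⟩
  · have : ∀ c : ZMod 2, c = 0 ∨ c = 1 := by decide
    rcases this c with rfl | rfl
    · exact absurd (by simpa using h) h0
    · refine ⟨1, ?_⟩
      rw [one_smul] at h
      have e2 : q = p := by omega
      subst h e2
      simpa using hx.lt hy h0
  · refine ⟨⟨(0 : ZMod 2) • 1 + B * Θ, 0, B, rfl⟩, hx.lt ?_ h0⟩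
    have := Top.act (σ := β) (S := B) (S₀ := B) 0
      ⟨fun l => hB _ _, fun l => by rw [T.two]; exact Sp.zero _⟩ hy
    rw [← h, show β + 1 + q = p by omega] at this
    exact this

lemma dN_add (x y : NN) : dN (x + y) ≤ max (dN x) (dN y) :=
  (dg_le _ _).2 fun i => ((dg_le (x : V) _).1 (le_max_left _ _) i).add
    ((dg_le (y : V) _).1 (le_max_right _ _) i)

theorem wa : WA dN RR where
  two := V.two
  add := dN_add
  zero := Nat.le_zero.1 ((dg_le _ _).2 fun _ => Sp.zero _)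
  mul x s hx hs := by
    obtain ⟨p, x₀, h0, ht⟩ := exists_top (x := (x : V)) hx
    rcases act_cases s ht h0 with h | rfl | ⟨σ, S₀, -, -, h1, h2⟩
    · exact absurd h hs
    · simp
    · have e1 : dN x = p + 1 := ht.dg_eq h0
      have e2 : dN (s • x) = σ + 1 + p + 1 := h1.dg_eq h2
      omega
  wa x y hx hy := by
    by_contra hcon
    push Not at hcon
    obtain ⟨hi, n1, n2⟩ := hcon
    apply hi
    intro s a
    by_contra hlt
    have two : ∀ x : NN, x + x = 0 := V.two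
    have k1 := dN_add (s • x + a • y) (a • y)
    have k2 := dN_add (s • x) (s • x + a • y)
    rw [add_assoc, two, add_zero] at k1
    rw [← add_assoc, two, zero_add] at k2
    have k3 : dN (s • x) = dN (a • y) := by omega
    have k4 : dN (s • x + a • y) < dN (s • x) := by omega
    obtain ⟨p, x₀, hx0, hxt⟩ := exists_top (x := (x : V)) hx
    obtain ⟨q, y₀, hy0, hyt⟩ := exists_top (x := (y : V)) hy
    rcases act_cases s hxt hx0 with rfl | rfl | ⟨σ, S, hS0, hS, h1, h2⟩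
    · rw [zero_smul, zero_add] at k4; rw [zero_smul] at k3; omega
    · rw [one_smul] at k4
      exact absurd (n1 a) (by omega)
    rcases act_cases a hyt hy0 with rfl | rfl | ⟨α, A, hA0, hA, h3, h4⟩
    · rw [zero_smul, add_zero] at k4; omega
    · rw [one_smul] at k4 k3
      have := n2 s
      rw [add_comm] at this
      omega
    have e1 : dN (s • x) = σ + 1 + p + 1 := h1.dg_eq h2
    have e2 : dN (a • y) = α + 1 + q + 1 := h3.dg_eq h4
    rw [show α + 1 + q = σ + 1 + p by omega] at h3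
    have e3 := (h1.add h3).eq_zero ((dg_le _ _).1 (show dN (s • x + a • y) ≤ _ by omega))
    have e4 : S *ᵥ (Θ *ᵥ x₀) = A *ᵥ (Θ *ᵥ y₀) := by
      rw [← add_zero (S *ᵥ _), ← V.two (A *ᵥ (Θ *ᵥ y₀)), ← add_assoc, e3, zero_add]
    rcases le_total σ α with hle | hle
    · obtain ⟨b, hb⟩ := red hxt hyt hx0 hS hA hS0 hle (by omega) e4
      exact absurd (n1 b) (not_le.2 hb)
    · obtain ⟨b, hb⟩ := red hyt hxt hy0 hA hS hA0 hle (by omega) e4.symm
      exact absurd (n2 b) (not_le.2 hb)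

end Pool.Agent.H.MP_4a5c06_al
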