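import Mathlib

set_option autoImplicit false

namespace Pool.Agent.H.MP_4a5c06_al

abbrev L := Fin 3 × Fin 3
abbrev W := FreeMonoid L
abbrev T := MonoidAlgebra (ZMod 2) W

open MonoidAlgebra Matrix

lemma T.two (t : T) : t + t = 0 := by
  have : (2 : ZMod 2) = 0 := rfl
  rw [← two_smul (ZMod 2) t, this, zero_smul]

def Sp (P : ℕ → Prop) (t : T) : Prop := ∀ w : W, t.coeff w ≠ 0 → P w.length

lemma Sp.zero (P : ℕ → Prop) : Sp P 0 := fun w h => by simp at h

lemma Sp.add {P : ℕ → Prop} {s t : T} (hs : Sp P s) (ht : Sp P t) : Sp P (s + t) := fun w h => by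
  by_cases h1 : s.coeff w = 0
  · exact ht w (by simpa [h1] using h)
  · exact hs w h1

lemma Sp.mono {P Q : ℕ → Prop} {s : T} (hs : Sp P s) (h : ∀ n, P n → Q n) : Sp Q s :=
  fun w hw => h _ (hs w hw)

lemma Sp.sum {P : ℕ → Prop} {ι : Type} (s : Finset ι) (f : ι → T) (h : ∀ i, Sp P (f i)) :
    Sp P (∑ i ∈ s, f i) :=
  Finset.sum_induction f (Sp P) (fun _ _ => Sp.add) (Sp.zero P) (fun i _ => h i)

lemma Sp.smul {P : ℕ → Prop} {s : T} (hs : Sp P s) (c : ZMod 2) : Sp P (c • s) := fun w h =>
  hs w (fun e => h (by simp [e]))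

lemma Sp.mul {P Q U : ℕ → Prop} {s t : T} (hs : Sp P s) (ht : Sp Q t)
    (h : ∀ i j, P i → Q j → U (i + j)) : Sp U (s * t) := by
  classical
  intro w hw
  have := support_coeff_mul_subset s t (Finsupp.mem_support_iff.2 hw)
  obtain ⟨a, ha, b, hb, rfl⟩ := Finset.mem_mul.1 this
  rw [FreeMonoid.length_mul]
  exact h _ _ (hs a (Finsupp.mem_support_iff.1 ha)) (ht b (Finsupp.mem_support_iff.1 hb))

lemma Sp.eq_zero {p : ℕ} {t : T} (h1 : Sp (· = p) t) (h2 : Sp (· < p) t) : t = 0 := by
  ext w
  by_contra h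
  have := h1 w h
  have := h2 w h
  omega

noncomputable def lt (l : L) : T := single (FreeMonoid.of l) 1

lemma lt_hom (l : L) : Sp (· = 1) (lt l) := fun w h => by
  by_cases e : w = FreeMonoid.of l
  · rw [e]; rfl
  · simp [lt, Finsupp.single_apply, Ne.symm e] at h

noncomputable def del (l : L) : T →+ T where
  toFun t := ofCoeff (Finsupp.comapDomain (FreeMonoid.of l * ·) t.coeff
    (mul_right_injective _).injOn)
  map_zero' := by ext; simp
  map_add' s t := by ext; simp

@[simp] lemma del_coeff (l : L) (t : T) (u : W) :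
    (del l t).coeff u = t.coeff (FreeMonoid.of l * u) := rfl

lemma del_smul (l : L) (c : ZMod 2) (t : T) : del l (c • t) = c • del l t := by ext; simp

lemma of_mul_inj {l m : L} {u v : W} : FreeMonoid.of l * u = FreeMonoid.of m * v ↔ l = m ∧ u = v :=
  List.cons_eq_cons

lemma of_mul_ne (l : L) (u : W) : FreeMonoid.of l * u ≠ 1 := List.cons_ne_nil _ _

lemma del_single (l m : L) (v : W) (c : ZMod 2) :
    del l (single (FreeMonoid.of m * v) c) = if l = m then single v c else 0 := by
  ext u
  split_ifs with h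
  · subst h
    classical
    simp only [del_coeff, coeff_single, Finsupp.single_apply, of_mul_inj, true_and]
  · simp [Finsupp.single_apply, of_mul_inj, Ne.symm h]

lemma del_mul (l : L) (s t : T) : del l (s * t) = del l s * t + s.coeff 1 • del l t := by
  induction s using MonoidAlgebra.induction_linear with
  | zero => simp
  | add x y hx hy => simp only [add_mul, map_add, hx, hy, coeff_add, Finsupp.add_apply, add_smul]; abel
  | single v c =>
    induction v using FreeMonoid.casesOn with
    | one =>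
      have : del l (single 1 c) = 0 := by
        ext u; simp [Finsupp.single_apply, (of_mul_ne l u).symm]
      rw [this]
      ext u
      simp [coeff_single_one_mul]
    | of_mul m v =>
      have h0 : (single (FreeMonoid.of m * v) c : T).coeff 1 = 0 := by
        simp [Finsupp.single_apply, of_mul_ne]
      rw [h0, zero_smul, add_zero, del_single]
      induction t using MonoidAlgebra.induction_linear with
      | zero => simp
      | add x y hx hy => simp only [mul_add, map_add, hx, hy]
      | single v' c' =>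
        rw [single_mul_single, mul_assoc, del_single]
        split_ifs <;> simp [single_mul_single]

lemma del_mul' (l : L) {s : T} {p : ℕ} (hs : Sp (· = p + 1) s) (t : T) :
    del l (s * t) = del l s * t := by
  have : s.coeff 1 = 0 := by
    by_contra h
    simpa using hs 1 h
  rw [del_mul, this, zero_smul, add_zero]

lemma del_lt (l m : L) (t : T) : del l (lt m * t) = if l = m then t else 0 := by
  rw [del_mul' l (p := 0) (lt_hom m), lt, ← mul_one (FreeMonoid.of m), del_single]
  split_ifs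
  · exact one_mul t
  · simp

lemma del_hom (l : L) {s : T} {p : ℕ} (hs : Sp (· = p + 1) s) : Sp (· = p) (del l s) :=
  fun w h => by
    have := hs _ h
    simp only [FreeMonoid.length_mul, FreeMonoid.length_of] at this
    omega

lemma del_ne {s : T} {p : ℕ} (hs : Sp (· = p + 1) s) (h : s ≠ 0) : ∃ l, del l s ≠ 0 := by
  by_contra hn
  push Not at hn
  apply h
  ext w
  induction w using FreeMonoid.casesOn with
  | one =>
    by_contra h
    simpa using hs 1 h
  | of_mul m v => rw [← del_coeff, hn]; rfl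

lemma hom_zero {s : T} (hs : Sp (· = 0) s) : s = s.coeff 1 • (1 : T) := by
  ext w
  by_cases e : w = 1
  · subst e; simp [one_def]
  · have : s.coeff w = 0 := by
      by_contra h
      exact e (FreeMonoid.length_eq_zero.1 (hs w h))
    simp [this, one_def, Finsupp.single_apply, Ne.symm e]

noncomputable def Θ : Matrix (Fin 3) (Fin 3) T :=
  fun a b => if a = 2 ∧ b = 2 then lt (0, 0) + lt (1, 1) else lt (a, b)

lemma Θ_hom (a b : Fin 3) : Sp (· = 1) (Θ a b) := by
  unfold Θ
  split_ifs
  · exact (lt_hom _).add (lt_hom _)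
  · exact lt_hom _

lemma Θ_tr : Θ 0 0 + Θ 1 1 + Θ 2 2 = 0 := by
  simp [Θ, T.two]

def κ (l : L) (a b : Fin 3) : ZMod 2 :=
  if a = 2 ∧ b = 2 then (if l = (0, 0) ∨ l = (1, 1) then 1 else 0) else if l = (a, b) then 1 else 0

lemma del_Θ (l : L) (a b : Fin 3) (t : T) : del l (Θ a b * t) = κ l a b • t := by
  unfold Θ κ
  by_cases h : a = 2 ∧ b = 2
  · rw [if_pos h, if_pos h, add_mul, map_add, del_lt, del_lt]
    by_cases h1 : l = (0, 0)
    · subst h1; simp
    · by_cases h2 : l = (1, 1) <;> simp [h1, h2]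
  · rw [if_neg h, if_neg h, del_lt]
    split_ifs <;> simp

abbrev V := Fin 3 → T
abbrev M3 := Matrix (Fin 3) (Fin 3) T

lemma del_row (l : L) (s : Fin 3 → ZMod 2) (x : V) :
    del l (∑ j, (s j • (1 : T)) * (Θ *ᵥ x) j) = ∑ j, ∑ k, (s j * κ l j k) • x k := by
  simp only [smul_mul_assoc, one_mul, map_sum, del_smul, mulVec, dotProduct, del_Θ,
    Finset.smul_sum, smul_smul]

lemma fin1 : ∀ (s : Fin 3 → ZMod 2) (i : Fin 3), s i = 1 → ∀ k : Fin 3,
    ∃ μ : Fin 3 → Fin 3 → ZMod 2, ∀ m : Fin 3,
      (∑ a, ∑ b, μ a b * ∑ j, s j * κ (a, b) j m) = if m = k then 1 else 0 := by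
  intro s i hi k
  refine ⟨fun a b => if s 0 = 1 then
      (if a = 0 ∧ b = k then 1 else if k = 0 ∧ a = 0 ∧ b = 2 then s 2 else 0)
    else if s 1 = 1 then
      (if a = 1 ∧ b = k then 1 else if k = 1 ∧ a = 1 ∧ b = 2 then s 2 else 0)
    else (if k = 2 then (if a = 0 ∧ b = 0 then 1 else 0) else if a = 2 ∧ b = k then 1 else 0), ?_⟩
  revert s i k
  decide +kernel

lemma fin2 : ∀ (s a X Y : Fin 3 → ZMod 2) (i : Fin 3), s i = 1 →
    (∀ p q : Fin 3, ∑ j, ∑ k, (s j * κ (p, q) j k) * X k = ∑ j, ∑ k, (a j * κ (p, q) j k) * Y k) →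
    ∀ k, X k = a i * Y k := by
  decide +kernel

theorem core (σ : ℕ) : ∀ (α : ℕ) (x y S A : V), (∀ i, Sp (· = σ) (S i)) →
    (∀ i, Sp (· = α) (A i)) → σ ≤ α → S ≠ 0 → S ⬝ᵥ (Θ *ᵥ x) = A ⬝ᵥ (Θ *ᵥ y) →
    (α = σ ∧ ∃ c : ZMod 2, x = c • y) ∨
      ∃ (β : ℕ) (B : M3), α = σ + β + 1 ∧ (∀ i j, Sp (· = β) (B i j)) ∧ x = B *ᵥ (Θ *ᵥ y) := by
  induction σ with
  | succ σ ih =>
    intro α x y S A hS hA hle hne e
    obtain ⟨α, rfl⟩ : ∃ β, α = β + 1 := ⟨α - 1, by omega⟩
    obtain ⟨i, hi⟩ := Function.ne_iff.1 hne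
    obtain ⟨l, hl⟩ := del_ne (hS i) hi
    have := ih α x y (fun j => del l (S j)) (fun j => del l (A j))
      (fun j => del_hom l (hS j)) (fun j => del_hom l (hA j)) (by omega)
      (Function.ne_iff.2 ⟨i, hl⟩) (by
        have := congrArg (del l) e
        simpa only [dotProduct, map_sum, del_mul' l (hS _), del_mul' l (hA _)] using this)
    rcases this with ⟨h1, h2⟩ | ⟨β, B, h1, h2⟩
    · exact Or.inl ⟨by omega, h2⟩
    · exact Or.inr ⟨β, B, by omega, h2⟩
  | zero =>
    intro α x y S A hS hA hle hne e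
    let s : Fin 3 → ZMod 2 := fun j => (S j).coeff 1
    have hs : S = fun j => s j • (1 : T) := funext fun j => hom_zero (hS j)
    obtain ⟨i, hi⟩ := Function.ne_iff.1 hne
    have hi1 : s i = 1 := by
      have : ∀ c : ZMod 2, c ≠ 0 → c = 1 := by decide
      refine this _ fun h => hi ?_
      rw [hs]; simp [h]
    have e1 : ∀ l, ∑ j, ∑ k, (s j * κ l j k) • x k = del l (A ⬝ᵥ (Θ *ᵥ y)) := fun l => by
      rw [← e, ← del_row, hs]; rfl
    cases α with
    | zero =>
      left
      let a : Fin 3 → ZMod 2 := fun j => (A j).coeff 1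
      have ha : A = fun j => a j • (1 : T) := funext fun j => hom_zero (hA j)
      refine ⟨rfl, a i, ?_⟩
      funext k
      ext u
      refine fin2 s a (fun k => (x k).coeff u) (fun k => (y k).coeff u) i hi1 (fun p q => ?_) k
      have := e1 (p, q)
      rw [ha] at this
      erw [del_row] at this
      simpa using congrArg (fun t : T => t.coeff u) this
    | succ β =>
      right
      choose μ hμ using fin1 s i hi1
      refine ⟨β, fun k j => ∑ a, ∑ b, μ k a b • del (a, b) (A j), by omega,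
        fun k j => Sp.sum _ _ fun a => Sp.sum _ _ fun b => (del_hom _ (hA j)).smul _, ?_⟩
      funext k
      have e2 : ∀ l, del l (A ⬝ᵥ (Θ *ᵥ y)) = ∑ j, del l (A j) * (Θ *ᵥ y) j := fun l => by
        simp only [dotProduct, map_sum, del_mul' l (hA _)]
      have e3 : x k = ∑ a, ∑ b, μ k a b • ∑ j, ∑ m, (s j * κ (a, b) j m) • x m := by
        have : x k = ∑ m, (if m = k then (1 : ZMod 2) else 0) • x m := by simp
        rw [this]
        simp only [← hμ, Finset.sum_smul, Finset.smul_sum, smul_smul, Finset.mul_sum]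
        simp only [Fin.sum_univ_three]
        abel
      rw [e3]
      simp only [e1, e2]
      generalize Θ *ᵥ y = z
      simp only [mulVec, dotProduct, Finset.sum_mul, smul_mul_assoc, Finset.smul_sum]
      simp only [Fin.sum_univ_three]
      abel

end Pool.Agent.H.MP_4a5c06_al
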