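import Pool.Agent.H.MP_4a5c06_al.Deg

set_option autoImplicit false

namespace Pool.Agent.H.MP_4a5c06_al

open Matrix

abbrev MR := Matrix (Fin 3) (Fin 3) RR
abbrev G := MRˣ

def Om : Type := Fin 3 → NN

noncomputable def act (m : MR) (v : Om) : Om := fun i => ∑ j, m i j • v j

lemma act_mul (m n : MR) (v : Om) : act (m * n) v = act m (act n v) := by
  funext i
  simp only [act, mul_apply, Finset.sum_smul, Finset.smul_sum, mul_smul]
  exact Finset.sum_comm

lemma act_one (v : Om) : act 1 v = v := by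
  funext i
  simp [act, one_apply]

noncomputable instance : MulAction G Om where
  smul g v := act g.1 v
  one_smul v := act_one v
  mul_smul g h v := act_mul g.1 h.1 v

lemma gsmul (g : G) (v : Om) : g • v = act g.1 v := rfl

lemma RR.two (r : RR) : r + r = 0 := by
  ext1
  exact funext fun i => V.two _

lemma MR.two (m : MR) : m + m = 0 := by
  ext1 i j
  exact RR.two _

def Indep (v : Om) : Prop := ∀ r : Fin 3 → RR, ∑ i, r i • v i = 0 → r = 0

lemma Indep.i3 {v : Om} (h : Indep v) : I3 RR (v 0) (v 1) (v 2) := fun s t u e => by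
  have := h ![s, t, u] (by simpa [Fin.sum_univ_three] using e)
  exact ⟨congrFun this 0, congrFun this 1, congrFun this 2⟩

lemma Indep.smul {v : Om} (h : Indep v) (g : G) : Indep (g • v) := fun r e => by
  have h1 : r ᵥ* g.1 = 0 := h _ (by
    rw [← e]
    simp only [gsmul, act, vecMul, dotProduct, Finset.sum_smul, Finset.smul_sum, mul_smul]
    exact Finset.sum_comm)
  have h2 := congrArg (· ᵥ* (g⁻¹).1) h1
  simpa using h2

lemma Indep.fix {v : Om} (h : Indep v) {g : G} (e : g • v = v) : g = 1 := by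
  ext1
  ext1 i j
  have := h (fun j => (g.1 - 1) i j) (by
    have e1 := congrFun e i
    have e2 := congrFun (act_one v) i
    simp only [gsmul, act] at e1 e2
    simp only [Matrix.sub_apply, sub_smul, Finset.sum_sub_distrib, e1, e2, sub_self])
  simpa [sub_eq_zero] using congrFun this j

noncomputable def tv (i j : Fin 3) (h : i ≠ j) (c : RR) : G :=
  ⟨1 + single i j c, 1 + single i j c,
    by simp [add_mul, mul_add, add_assoc, h.symm, MR.two],
    by simp [add_mul, mul_add, add_assoc, h.symm, MR.two]⟩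

lemma tv_smul (i j : Fin 3) (h : i ≠ j) (c : RR) (v : Om) (k : Fin 3) :
    (tv i j h c • v) k = v k + if k = i then c • v j else 0 := by
  have e2 := congrFun (act_one v) k
  simp only [act] at e2
  simp only [gsmul, act, tv, Matrix.add_apply, add_smul, Finset.sum_add_distrib, e2, single, of_apply]
  by_cases hk : k = i
  · subst hk; simp
  · simp [hk, Ne.symm hk]

def gens : Set G := {g | ∃ i j : Fin 3, ∃ c : RR, i ≠ j ∧
  (g : MR) = 1 + Matrix.of (fun a b => if a = i ∧ b = j then c else 0)}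

noncomputable def E : Subgroup G := Subgroup.closure gens

lemma tv_mem (i j : Fin 3) (h : i ≠ j) (c : RR) : tv i j h c ∈ E :=
  Subgroup.subset_closure ⟨i, j, c, h, by
    ext1 a b; simp [tv, single, eq_comm]⟩

lemma gens_eq {g : G} (hg : g ∈ gens) : ∃ i j h c, g = tv i j h c := by
  obtain ⟨i, j, c, h, e⟩ := hg
  refine ⟨i, j, h, c, Units.ext ?_⟩
  rw [e]
  ext1 a b; simp [tv, single, eq_comm]

def PP (u v : Om) : Prop := Pt dN RR (u 0) (u 1) (u 2) (v 0) (v 1) (v 2)

lemma PP.smul {u : Om} (hu : Indep u) {D : ℕ} (hT : T3 dN D (u 0) (u 1) (u 2)) {e : G}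
    (he : e ∈ E) : ∀ v, PP u v → PP u (e • v) := by
  have key : ∀ g ∈ gens, ∀ v, PP u v → PP u (g • v) := by
    intro g hg v hv
    obtain ⟨i, j, h, c, rfl⟩ := gens_eq hg
    obtain ⟨n1, n2, n3⟩ := Pt.nb wa hu.i3 hT _ hv le_rfl
    unfold PP
    simp only [tv_smul]
    fin_cases i <;> fin_cases j <;> simp at h ⊢
    · simpa using n1 c 0
    · simpa using n1 0 c
    · simpa using n2 c 0
    · simpa using n2 0 c
    · simpa using n3 c 0
    · simpa using n3 0 c
  induction he using Subgroup.closure_induction'' with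
  | one => simp
  | mem g hg => exact key g hg
  | inv_mem g hg =>
    obtain ⟨i, j, h, c, rfl⟩ := gens_eq hg
    exact key _ hg
  | mul a b _ _ ha hb => intro v hv; rw [mul_smul]; exact ha _ (hb v hv)

def PB (v : Om) : Prop := ∃ (p : ℕ) (w : T), w ≠ 0 ∧
  ∀ i, Top p (v i : V) (fun j => if i = j then w else 0)

lemma Top.t3 {v : Om} {p : ℕ} {w : T} (hw : w ≠ 0)
    (h : ∀ i, Top p (v i : V) (fun j => if i = j then w else 0)) :
    T3 dN (p + 1) (v 0) (v 1) (v 2) := by
  have ne : ∀ (x : V) (i : Fin 3), x i = w → x ≠ 0 := fun x i e h0 => hw (by rw [← e, h0]; rfl)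
  exact ⟨by omega, (h 0).dg_eq (ne _ 0 (by simp)), (h 1).dg_eq (ne _ 1 (by simp)),
    (h 2).dg_eq (ne _ 2 (by simp)), ((h 0).add (h 1)).dg_eq (ne _ 0 (by simp)),
    ((h 0).add (h 2)).dg_eq (ne _ 0 (by simp)), ((h 1).add (h 2)).dg_eq (ne _ 1 (by simp)),
    (((h 0).add (h 1)).add (h 2)).dg_eq (ne _ 0 (by simp))⟩

lemma Top.uniq {p : ℕ} {x a b : V} (h : Top p x a) (h' : Top p x b) : a = b := by
  have := (h.add h').eq_zero (by rw [V.two]; exact fun _ => Sp.zero _)
  rw [← add_zero a, ← V.two b, ← add_assoc, this, zero_add]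

lemma Top.smul {p : ℕ} {x a : V} (h : Top p x a) (c : ZMod 2) : Top p (c • x) (c • a) :=
  ⟨fun i => (h.1 i).smul c, fun i => by
    have := (h.2 i).smul c
    rwa [smul_add] at this⟩

theorem pingE {u : Om} (hu : Indep u) (hp : PB u) {e : G} (he : e ∈ E) (h1 : e ≠ 1) :
    ¬ PB (e • u) := by
  rintro ⟨q, w', hw', hq⟩
  obtain ⟨p, w, hw, hp⟩ := hp
  have h2 : PP u (e • u) := PP.smul hu (Top.t3 hw hp) he u Pt.base
  obtain ⟨hd, hK⟩ := Pt.span wa h2 (Top.t3 hw' hq)
  have : q = p := by have := (Top.t3 hw hp).2.1; omega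
  subst this
  let U : Fin 3 → V := u
  let K : AddSubgroup NN :=
    { carrier := {x | ∃ a b c : ZMod 2, (x : V) = a • U 0 + b • U 1 + c • U 2}
      add_mem' := by
        rintro _ _ ⟨a, b, c, rfl⟩ ⟨a', b', c', rfl⟩
        refine ⟨a + a', b + b', c + c', ?_⟩
        show (a • U 0 + b • U 1 + c • U 2) + (a' • U 0 + b' • U 1 + c' • U 2) = _
        module
      zero_mem' := ⟨0, 0, 0, by show (0 : V) = _; simp⟩
      neg_mem' := by
        rintro _ ⟨a, b, c, rfl⟩
        refine ⟨-a, -b, -c, ?_⟩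
        show -(a • U 0 + b • U 1 + c • U 2) = _
        module }
  have hm : ∀ i, (e • u) i ∈ K := by
    obtain ⟨k0, k1, k2⟩ := hK K ⟨1, 0, 0, by show U 0 = _; simp⟩ ⟨0, 1, 0, by show U 1 = _; simp⟩
      ⟨0, 0, 1, by show U 2 = _; simp⟩
    intro i
    fin_cases i
    exacts [k0, k1, k2]
  refine h1 (hu.fix (funext fun i => ?_))
  obtain ⟨a, b, c, hx⟩ := hm i
  have t1 := (((hp 0).smul a).add ((hp 1).smul b)).add ((hp 2).smul c)
  have t2 := hq i
  rw [hx] at t2
  have t3 := t1.uniq t2
  have f0 := congrFun t3 0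
  have f1 := congrFun t3 1
  have f2 := congrFun t3 2
  have z : ∀ c : ZMod 2, c = 0 ∨ c = 1 := by decide
  show ((e • u) i : V) = U i
  rw [hx]
  clear hx t1 t2 t3 hq hm hK h2
  rcases z a with rfl | rfl <;> rcases z b with rfl | rfl <;> rcases z c with rfl | rfl <;>
    fin_cases i <;> simp_all [eq_comm]

noncomputable def zz (i l : Fin 3) : RR := ⟨single i l 1 * Θ, 0, single i l 1, by simp⟩

noncomputable def Z : MR := Matrix.of zz

lemma ZZ : Z * Z = 0 := by
  ext1 i l
  ext1
  have : ∀ j, (zz i j * zz j l).1 = single i l (Θ j j) * Θ := fun j => by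
    show single i j 1 * Θ * (single j l 1 * Θ) = _
    rw [← mul_assoc, single_mul_mul_single]; simp
  simp only [mul_apply, Z, of_apply, Fin.sum_univ_three, Subring.coe_add, this, ← add_mul,
    ← single_add, Θ_tr]
  simp

noncomputable def X : G :=
  ⟨1 + Z, 1 + Z, by simp [add_mul, mul_add, add_assoc, ZZ, MR.two],
    by simp [add_mul, mul_add, add_assoc, ZZ, MR.two]⟩

noncomputable def τ (v : Fin 3 → V) : T := ∑ l, ∑ j, Θ l j * v l j

lemma X_smul (v : Om) (i k : Fin 3) :
    ((X • v) i : V) k = (v i : V) k + if i = k then τ v else 0 := by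
  have e2 := congrFun (act_one v) i
  simp only [act] at e2
  have e3 : (X • v) i = v i + ∑ l, zz i l • v l := by
    simp only [gsmul, act, X, Matrix.add_apply, add_smul, Finset.sum_add_distrib, e2, Z, of_apply]
  have e4 : ∀ l, ((zz i l • v l : NN) : V) k = if i = k then ∑ j, Θ l j * (v l : V) j else 0 := by
    intro l
    rw [smul_def]
    show ((single i l 1 * Θ) *ᵥ (v l : V)) k = _
    rw [← mulVec_mulVec]
    by_cases h : i = k
    · subst h; simp [single, mulVec, dotProduct]
    · simp [single, mulVec, dotProduct, h]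
  rw [e3, Fin.sum_univ_three]
  show (v i : V) k + (((zz i 0 • v 0 : NN) : V) k + ((zz i 1 • v 1 : NN) : V) k +
    ((zz i 2 • v 2 : NN) : V) k) = _
  rw [e4, e4, e4, τ, Fin.sum_univ_three (fun l => ∑ j, Θ l j * (v l : V) j)]
  split_ifs <;> simp

theorem pingX {v : Om} (hv : Indep v) (hp : ¬ PB v) : PB (X • v) := by
  let U : Fin 3 → V := v
  have h0 : (fun l : L => U l.1 l.2) ≠ 0 := fun e =>
    hv.i3.ne (funext fun j => congrFun e (0, j))
  obtain ⟨p, y, hy, ht⟩ := exists_top h0
  have hw : τ (fun i j => y (i, j)) ≠ 0 := fun e => by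
    have e1 : ∀ l, ∑ a, ∑ b, κ l a b • y (a, b) = 0 := fun l => by
      have := congrArg (del l) e
      simpa only [τ, map_sum, del_Θ, map_zero] using this
    have a1 := e1 (0, 0)
    have a2 := e1 (0, 1)
    have a3 := e1 (0, 2)
    have a4 := e1 (1, 0)
    have a5 := e1 (1, 1)
    have a6 := e1 (1, 2)
    have a7 := e1 (2, 0)
    have a8 := e1 (2, 1)
    simp [κ, Fin.sum_univ_three] at a1 a2 a3 a4 a5 a6 a7 a8
    have b1 : y (0, 0) = y (2, 2) := by
      rw [← add_zero (y (0, 0)), ← T.two (y (2, 2)), ← add_assoc, a1, zero_add]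
    have b2 : y (1, 1) = y (2, 2) := by
      rw [← add_zero (y (1, 1)), ← T.two (y (2, 2)), ← add_assoc, a5, zero_add]
    have c : ∀ i j, y (i, j) = if i = j then y (2, 2) else 0 := by
      intro i j
      fin_cases i <;> fin_cases j <;> simp [*]
    refine hp ⟨p, y (2, 2), fun h => hy (funext fun l => ?_), fun i => ⟨fun j => ?_, fun j => ?_⟩⟩
    · have := c l.1 l.2
      simpa [h] using this
    · beta_reduce; rw [← c]; exact ht.1 (i, j)
    · beta_reduce; rw [← c]; exact ht.2 (i, j)
  have hh : Sp (· = p + 1) (τ (fun i j => y (i, j))) :=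
    Sp.sum _ _ fun l => Sp.sum _ _ fun j => (Θ_hom l j).mul (ht.1 (l, j)) (by omega)
  have hl : Sp (· < p + 1) (τ v + τ (fun i j => y (i, j))) := by
    simp only [τ, ← Finset.sum_add_distrib, ← mul_add]
    exact Sp.sum _ _ fun l => Sp.sum _ _ fun j => (Θ_hom l j).mul (ht.2 (l, j)) (by omega)
  refine ⟨p + 1, _, hw, fun i => ⟨fun j => ?_, fun j => ?_⟩⟩
  · beta_reduce
    split_ifs
    · exact hh
    · exact Sp.zero _
  · rw [X_smul, add_assoc]
    refine (ht.le (i, j)).add ?_
    beta_reduce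
    split_ifs
    · exact hl
    · simpa using Sp.zero _

noncomputable def v₀ : Om := fun i => (fun j => if j = 0 then lt (0, i) else 0 : V)

lemma v₀_indep : Indep v₀ := fun r e => by
  let e0 : NN := (fun j => if j = 0 then 1 else 0 : V)
  have h1 : ∀ i k, ((r i • v₀ i : NN) : V) k = ((r i • e0 : NN) : V) k * lt (0, i) := by
    intro i k
    simp [smul_def, v₀, e0, mulVec, dotProduct]
  funext i
  by_contra hr
  have h2 : r i • e0 = 0 := by
    funext k
    have e1 : ((r 0 • v₀ 0 : NN) : V) k + ((r 1 • v₀ 1 : NN) : V) k + ((r 2 • v₀ 2 : NN) : V) k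
        = 0 := by
      rw [Fin.sum_univ_three] at e
      exact congrFun e k
    rw [h1, h1, h1] at e1
    ext u
    have e2 := congrArg (fun t : T => t.coeff (u * FreeMonoid.of (0, i))) e1
    have a : ∀ (t : T) (m : Fin 3), (t * lt (0, m)).coeff (u * FreeMonoid.of (0, i)) =
        if m = i then t.coeff u else 0 := by
      intro t m
      split_ifs with h
      · subst h; simp [lt]
      · refine MonoidAlgebra.coeff_mul_single_of_forall_mul_ne _ _ fun d hd => h ?_
        have := List.append_inj_right' (show d.toList ++ [(0, m)] = u.toList ++ [(0, i)] from hd) rfl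
        simpa using this
    simp only [MonoidAlgebra.coeff_add, Finsupp.add_apply, a] at e2
    show _ = (0 : ZMod 2)
    fin_cases i <;> simpa using e2
  have h3 : e0 ≠ 0 := fun h => by
    have := congrFun h 0
    simp only [e0, if_true] at this
    exact one_ne_zero this
  have h4 := (wa.mul e0 (r i) h3 hr).1
  rw [h2, wa.zero] at h4
  obtain ⟨p, y, hy, ht⟩ := exists_top (x := (e0 : V)) h3
  have : dN e0 = p + 1 := ht.dg_eq hy
  omega

lemma v₀_not : ¬ PB v₀ := by
  rintro ⟨p, w, hw, h⟩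
  have h1 := (h 1).1 1
  have h2 := (h 1).2 1
  simp [v₀] at h1 h2
  exact hw (h1.eq_zero h2)

end Pool.Agent.H.MP_4a5c06_al
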